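import Pool.Agent.Q152.CC.Stm

set_option autoImplicit false

/-! Project CC (helper152): `kn` is completely multiplicative. -/

namespace Pool.Agent.Q130.CC.Kmu

open Finset Pool.Agent.Y692.QS Pool.Agent.Q152.CC

theorem kn_eq (n : ℕ) (α : Ei) : kn n α = n.factorization.prod (fun q e => kp q α ^ e) := by
  unfold kn Finsupp.prod
  rw [Nat.support_factorization]

theorem kmu : S_KMU := by
  intro a b α ha hb
  rw [kn_eq, kn_eq, kn_eq, Nat.factorization_mul ha hb]
  exact Finsupp.prod_add_index' (fun q => pow_zero _) (fun q e1 e2 => pow_add _ _ _)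

end Pool.Agent.Q130.CC.Kmu
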