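import Pool.Agent.Q62.CC.Stn

/-!
Lemma job CC-38 of project CC (helper62), proved by helper130: a flow without control is never
stopped.
-/

set_option autoImplicit false

open Set Filter Topology MeasureTheory
open scoped ENNReal ContDiff

namespace Pool.Agent.Q130.CC

open Pool.Agent.Q62.CC

lemma Gr_symm (α β x y : ℝ) : Gr α β x y = Gr α β y x := by
  unfold Gr
  rw [min_comm, max_comm]

lemma Gr_cont (α β : ℝ) : Continuous fun z : ℝ × ℝ => Gr α β z.1 z.2 := by
  unfold Gr
  exact (((continuous_fst.min continuous_snd).sub continuous_const).mul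
    (continuous_const.sub (continuous_fst.max continuous_snd))).div_const _

theorem t_NEV (hp1 : S_EIG) (hp2 : S_GRR) : S_NEV := by
  intro m x₀ x₁ α β M c hw T V Vt W hT hdt hVtc hVc hdx hdxx hwall hrest t ht
  obtain ⟨ι, _, φ, μ, hφc, hμ0, heig, hnorm, horth, hpars⟩ := hp1 m x₀ x₁ α β M c hw
  have hab := hw.hab
  have hsub : Icc α β ⊆ Ioo x₀ x₁ := fun x hx =>
    ⟨lt_of_lt_of_le hw.h0 hx.1, lt_of_le_of_lt hx.2 hw.h1⟩
  have hmc : ContinuousOn m (Icc α β) := hw.smooth.continuousOn.mono hsub
  have hmpos : ∀ x ∈ Icc α β, 0 < m x := fun x hx => hw.pos x (hsub hx)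
  have hVx : ∀ s, 0 < s → ContinuousOn (V s) (Icc α β) := by
    intro s hs
    exact hVc.comp (by fun_prop : ContinuousOn (fun x : ℝ => (s, x)) (Icc α β))
      (fun x hx => ⟨hs, hx⟩)
  have hVtx : ∀ s, 0 < s → ContinuousOn (Vt s) (Icc α β) := by
    intro s hs
    exact hVtc.comp (by fun_prop : ContinuousOn (fun x : ℝ => (s, x)) (Icc α β))
      (fun x hx => ⟨hs, hx⟩)
  have hms : MeasurableSet (Icc α β) := measurableSet_Icc
  -- the coefficient
  have hzero : ∀ i, ∫ x in Icc α β, m x * (V t x * φ i x) = 0 := by
    intro i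
    let C : ℝ → ℝ := fun s => ∫ x in Icc α β, m x * (V s x * φ i x)
    let C' : ℝ → ℝ := fun s => ∫ x in Icc α β, m x * (Vt s x * φ i x)
    -- differentiation under the integral
    have hderiv : ∀ s, 0 < s → HasDerivAt C (C' s) s := by
      intro s hs
      have hK : IsCompact (Icc (s / 2) (2 * s) ×ˢ Icc α β) := isCompact_Icc.prod isCompact_Icc
      have hKs : Icc (s / 2) (2 * s) ×ˢ Icc α β ⊆ Ioi 0 ×ˢ Icc α β := by
        rintro ⟨r, x⟩ ⟨hr, hx⟩
        exact ⟨lt_of_lt_of_le (half_pos hs) hr.1, hx⟩
      obtain ⟨B, hB⟩ := hK.exists_bound_of_continuousOn (hVtc.mono hKs)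
      obtain ⟨B', hB'⟩ := (isCompact_Icc (a := α) (b := β)).exists_bound_of_continuousOn
        (hmc.mul (hφc i))
      have hnh : Icc (s / 2) (2 * s) ∈ 𝓝 s := Icc_mem_nhds (by linarith) (by linarith)
      have hev : ∀ᶠ r in 𝓝 s, 0 < r := Ioi_mem_nhds hs
      refine (hasDerivAt_integral_of_dominated_loc_of_deriv_le (bound := fun _ => B' * B)
        (F' := fun r x => m x * (Vt r x * φ i x)) hnh ?_ ?_ ?_ ?_ ?_ ?_).2
      · filter_upwards [hev] with r hr
        exact (hmc.mul ((hVx r hr).mul (hφc i))).aestronglyMeasurable hms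
      · exact (hmc.mul ((hVx s hs).mul (hφc i))).integrableOn_compact isCompact_Icc
      · exact (hmc.mul ((hVtx s hs).mul (hφc i))).aestronglyMeasurable hms
      · rw [ae_restrict_iff' hms]
        refine Eventually.of_forall fun x hx r hr => ?_
        have h1 := hB (r, x) ⟨hr, hx⟩
        have h2 := hB' x hx
        calc ‖m x * (Vt r x * φ i x)‖ = ‖m x * φ i x‖ * ‖Vt r x‖ := by
              rw [← norm_mul]
              congr 1
              ring
          _ ≤ B' * B := mul_le_mul h2 h1 (norm_nonneg _) ((norm_nonneg _).trans h2)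
      · exact integrable_const _
      · rw [ae_restrict_iff' hms]
        refine Eventually.of_forall fun x hx r hr => ?_
        have h1 := hdt r (lt_of_lt_of_le (half_pos hs) hr.1) x hx
        exact (h1.mul_const (φ i x)).const_mul (m x)
    -- the relation between the coefficient and its derivative
    have hrel : ∀ s, 0 < s → C s = -(μ i * C' s) := by
      intro s hs
      have hF2 : ContinuousOn (fun x => m x * Vt s x) (Icc α β) := hmc.mul (hVtx s hs)
      have hrep := hp2 α β (V s) (W s) (fun x => m x * Vt s x) hab (hdx s hs) (hdxx s hs) hF2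
        (hwall s hs).1 (hwall s hs).2
      have hcontK : ContinuousOn (fun z : ℝ × ℝ => m z.1 * φ i z.1 * (Gr α β z.1 z.2 *
          (m z.2 * Vt s z.2))) (Icc α β ×ˢ Icc α β) := by
        have e1 : ContinuousOn (fun z : ℝ × ℝ => m z.1 * φ i z.1) (Icc α β ×ˢ Icc α β) :=
          (hmc.mul (hφc i)).comp continuousOn_fst (fun z hz => hz.1)
        have e2 : ContinuousOn (fun z : ℝ × ℝ => m z.2 * Vt s z.2) (Icc α β ×ˢ Icc α β) :=
          hF2.comp continuousOn_snd (fun z hz => hz.2)
        exact e1.mul ((Gr_cont α β).continuousOn.mul e2)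
      have hint : Integrable (Function.uncurry fun x y : ℝ => m x * φ i x * (Gr α β x y *
          (m y * Vt s y))) ((volume.restrict (Icc α β)).prod (volume.restrict (Icc α β))) := by
        rw [Measure.prod_restrict]
        exact hcontK.integrableOn_compact (isCompact_Icc.prod isCompact_Icc)
      calc C s = ∫ x in Icc α β, -∫ y in Icc α β, m x * φ i x * (Gr α β x y *
            (m y * Vt s y)) := by
            refine setIntegral_congr_fun hms fun x hx => ?_
            show m x * (V s x * φ i x) = -∫ y in Icc α β, m x * φ i x * (Gr α β x y *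
              (m y * Vt s y))
            rw [integral_const_mul, hrep x hx]
            ring
        _ = -∫ x in Icc α β, ∫ y in Icc α β, m x * φ i x * (Gr α β x y *
            (m y * Vt s y)) := integral_neg _
        _ = -∫ y in Icc α β, ∫ x in Icc α β, m x * φ i x * (Gr α β x y *
            (m y * Vt s y)) := by rw [integral_integral_swap hint]
        _ = -∫ y in Icc α β, μ i * (m y * (Vt s y * φ i y)) := by
            congr 1
            refine setIntegral_congr_fun hms fun y hy => ?_
            show ∫ x in Icc α β, m x * φ i x * (Gr α β x y * (m y * Vt s y)) =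
              μ i * (m y * (Vt s y * φ i y))
            have e3 : ∀ x, m x * φ i x * (Gr α β x y * (m y * Vt s y)) =
                (m y * Vt s y) * (Gr α β y x * (m x * φ i x)) := by
              intro x
              rw [Gr_symm α β x y]
              ring
            simp only [e3]
            rw [integral_const_mul, heig i y hy]
            ring
        _ = -(μ i * C' s) := by rw [integral_const_mul]
    -- the exponential factor
    let E : ℝ → ℝ := fun s => C s * Real.exp (s / μ i)
    have hEd : ∀ s, 0 < s → HasDerivAt E 0 s := by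
      intro s hs
      have h1 := hderiv s hs
      have h2 : HasDerivAt (fun s => Real.exp (s / μ i)) (Real.exp (s / μ i) * (1 / μ i)) s :=
        ((hasDerivAt_id s).div_const (μ i)).exp
      have h3 := h1.mul h2
      refine h3.congr_deriv ?_
      rw [hrel s hs]
      field_simp [hμ0 i]
      ring
    have hconst : E t = E (max T t) := by
      refine isOpen_Ioi.is_const_of_deriv_eq_zero (s := Ioi (0 : ℝ)) isPreconnected_Ioi
        (fun s hs => (hEd s hs).differentiableAt.differentiableWithinAt)
        (fun s hs => (hEd s hs).deriv) ht (lt_of_lt_of_le hT (le_max_left _ _))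
    have hCT : C (max T t) = 0 := by
      show ∫ x in Icc α β, m x * (V (max T t) x * φ i x) = 0
      refine setIntegral_eq_zero_of_forall_eq_zero fun x hx => ?_
      rw [hrest _ (le_max_left _ _) x hx]
      ring
    have h5 : C t * Real.exp (t / μ i) = 0 := by
      have : E t = 0 := by
        rw [hconst]
        show C (max T t) * _ = 0
        rw [hCT, zero_mul]
      exact this
    rcases mul_eq_zero.mp h5 with h6 | h6
    · exact h6
    · exact absurd h6 (Real.exp_pos _).ne'
  -- Parseval
  have hV := hVx t ht
  have hmem : MemLp (V t) 2 (volume.restrict (Icc α β)) := by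
    refine MemLp.of_bound (hV.aestronglyMeasurable hms)
      (Classical.choose ((isCompact_Icc (a := α) (b := β)).exists_bound_of_continuousOn hV)) ?_
    rw [ae_restrict_iff' hms]
    exact Eventually.of_forall
      (Classical.choose_spec ((isCompact_Icc (a := α) (b := β)).exists_bound_of_continuousOn hV))
  have hP := hpars (V t) hmem
  have hP0 : ∫ x in Icc α β, m x * V t x ^ 2 = 0 := by
    have h1 : (fun i => (∫ x in Icc α β, m x * (V t x * φ i x)) ^ 2) = fun _ => (0 : ℝ) := by
      funext i
      rw [hzero i]
      norm_num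
    rw [h1] at hP
    exact hP.unique hasSum_zero
  have hcont2 : ContinuousOn (fun x => m x * V t x ^ 2) (Icc α β) := hmc.mul (hV.pow 2)
  have hnn : 0 ≤ᵐ[volume.restrict (Icc α β)] fun x => m x * V t x ^ 2 := by
    refine (ae_restrict_iff' hms).mpr (Eventually.of_forall fun x hx => ?_)
    exact mul_nonneg (hmpos x hx).le (sq_nonneg _)
  have hae := (setIntegral_eq_zero_iff_of_nonneg_ae hnn
    (hcont2.integrableOn_compact isCompact_Icc)).mp hP0
  have heq := Measure.eqOn_Icc_of_ae_eq volume hab.ne hae hcont2 continuousOn_const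
  intro x hx
  have h7 : m x * V t x ^ 2 = 0 := heq hx
  rcases mul_eq_zero.mp h7 with h8 | h8
  · exact absurd h8 (hmpos x hx).ne'
  · exact pow_eq_zero_iff (two_ne_zero) |>.mp h8

end Pool.Agent.Q130.CC
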