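import Pool.Agent.Q62.CC.Stm

/-!
# Project CC of helper62, job SPC: the spectral data
-/

set_option autoImplicit false

open Set Filter Topology MeasureTheory

namespace Pool.Agent.Q130.CC

open Pool.Agent.Q62.CC

/-- **JOB CC-17.** -/
theorem t_SPC (hp1 : S_EIG) (hp2 : S_EFN) (hp3 : S_BDS) (hp4 : S_TRC) (hp5 : S_DOR) (hp6 : S_VVS) :
    S_SPC := by
  intro m x₀ x₁ α β M c hW
  obtain ⟨ι, hι, φ, μ, hcont, hμ, heig, hnorm, horth, hpars⟩ := hp1 m x₀ x₁ α β M c hW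
  have hE := fun i => hp2 m x₀ x₁ α β M c hW (φ i) (μ i) (hcont i) (hμ i) (heig i) (hnorm i)
  have hμp : ∀ i, 0 < μ i := fun i => (hE i).1
  have hSβ : ∀ i, Sz m α (-(μ i)⁻¹) β = 0 := fun i => (hE i).2.1
  choose p hp using fun i => (hE i).2.2
  obtain ⟨A₀, δ₀, hA₀, hδ₀, hB⟩ := hp3 m x₀ x₁ α β M c hW
  have hlp : ∀ i, 0 < (μ i)⁻¹ := fun i => inv_pos.2 (hμp i)
  have hBi := fun i => hB (μ i)⁻¹ (hlp i) (hSβ i)
  have hab := hW.hab
  have hαβ : α ∈ Icc α β := ⟨le_rfl, hab.le⟩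
  have hββ : β ∈ Icc α β := ⟨hab.le, le_rfl⟩
  have hsub : ∀ x ∈ Icc α β, x ∈ Ioo x₀ x₁ := fun x hx =>
    ⟨lt_of_lt_of_le hW.h0 hx.1, lt_of_le_of_lt hx.2 hW.h1⟩
  have hne : ∀ i, 1 - Cz m α (-(μ i)⁻¹) β ≠ 0 := by
    intro i h
    have := (hBi i).2.1
    rw [h, abs_zero] at this
    linarith
  -- the functions
  set e : ι → ℝ := fun i => p i * (μ i)⁻¹ / (1 - Cz m α (-(μ i)⁻¹) β) with he
  have hV : ∀ i, ∀ x ∈ Icc α β, e i * Vz m α β (-(μ i)⁻¹) x = p i * Sz m α (-(μ i)⁻¹) x := by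
    intro i x hx
    have h1 := (hp6 m x₀ x₁ α β M c hW (-(μ i)⁻¹) x (hsub x hx)).1
    rw [hSβ i, zero_mul, zero_sub] at h1
    have h2 : (μ i)⁻¹ * Vz m α β (-(μ i)⁻¹) x = (1 - Cz m α (-(μ i)⁻¹) β) * Sz m α (-(μ i)⁻¹) x := by
      linarith
    calc e i * Vz m α β (-(μ i)⁻¹) x
        = p i * ((μ i)⁻¹ * Vz m α β (-(μ i)⁻¹) x) / (1 - Cz m α (-(μ i)⁻¹) β) := by
          rw [he]
          ring
      _ = p i * ((1 - Cz m α (-(μ i)⁻¹) β) * Sz m α (-(μ i)⁻¹) x) / (1 - Cz m α (-(μ i)⁻¹) β) := by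
          rw [h2]
      _ = p i * Sz m α (-(μ i)⁻¹) x := by
          rw [mul_div_assoc, mul_div_cancel_left₀ _ (hne i)]
  have hVd : ∀ i, ∀ x ∈ Icc α β, e i * Vdz m α β (-(μ i)⁻¹) x = p i * Sdz m α (-(μ i)⁻¹) x := by
    intro i x hx
    have h1 := (hp6 m x₀ x₁ α β M c hW (-(μ i)⁻¹) x (hsub x hx)).2
    rw [hSβ i, zero_mul, neg_zero, zero_sub] at h1
    have h2 : (μ i)⁻¹ * Vdz m α β (-(μ i)⁻¹) x = (1 - Cz m α (-(μ i)⁻¹) β) * Sdz m α (-(μ i)⁻¹) x := by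
      linarith
    calc e i * Vdz m α β (-(μ i)⁻¹) x
        = p i * ((μ i)⁻¹ * Vdz m α β (-(μ i)⁻¹) x) / (1 - Cz m α (-(μ i)⁻¹) β) := by
          rw [he]
          ring
      _ = p i * ((1 - Cz m α (-(μ i)⁻¹) β) * Sdz m α (-(μ i)⁻¹) x) / (1 - Cz m α (-(μ i)⁻¹) β) := by
          rw [h2]
      _ = p i * Sdz m α (-(μ i)⁻¹) x := by
          rw [mul_div_assoc, mul_div_cancel_left₀ _ (hne i)]
  have hφ : ∀ i, ∀ x ∈ Icc α β, e i * Vz m α β (-(μ i)⁻¹) x = φ i x := fun i x hx => by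
    rw [hV i x hx, hp i x hx]
  -- the norms
  have hS2 : ∀ i, p i ^ 2 * ∫ x in Icc α β, m x * Sz m α (-(μ i)⁻¹) x ^ 2 = 1 := by
    intro i
    rw [← hnorm i, ← integral_const_mul]
    refine setIntegral_congr_fun measurableSet_Icc fun x hx => ?_
    rw [hp i x hx]
    ring
  have hpb : ∀ i, |p i| ≤ (1 / A₀ + 1) * (1 + (μ i)⁻¹) := by
    intro i
    have h1 := (hBi i).1
    have h2 := hS2 i
    have h3 : p i ^ 2 * A₀ ≤ (μ i)⁻¹ := by
      calc p i ^ 2 * A₀ ≤ p i ^ 2 * ((μ i)⁻¹ * ∫ x in Icc α β, m x * Sz m α (-(μ i)⁻¹) x ^ 2) :=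
            mul_le_mul_of_nonneg_left h1 (sq_nonneg _)
        _ = (μ i)⁻¹ * (p i ^ 2 * ∫ x in Icc α β, m x * Sz m α (-(μ i)⁻¹) x ^ 2) := by ring
        _ = (μ i)⁻¹ := by rw [h2, mul_one]
    have h4 : p i ^ 2 ≤ (μ i)⁻¹ * (1 / A₀) := by
      rw [mul_one_div, le_div_iff₀ hA₀]
      exact h3
    have h5 : 0 < 1 / A₀ := by positivity
    have h6 := hlp i
    apply abs_le_of_sq_le_sq _ (by positivity)
    calc p i ^ 2 ≤ (μ i)⁻¹ * (1 / A₀) := h4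
      _ ≤ ((1 / A₀ + 1) * (1 + (μ i)⁻¹)) ^ 2 := by
          set u := (μ i)⁻¹
          set w := 1 / A₀
          nlinarith [mul_pos h5 h6, mul_pos (mul_pos h5 h6) h6, mul_pos (mul_pos h5 h6) h5,
            mul_pos (mul_pos h5 h6) (mul_pos h5 h6), sq_nonneg w, sq_nonneg u]
  set A' : ℝ := 1 / A₀ + 1 with hA'
  have hA'0 : 0 < A' := by positivity
  have hgrow : ∀ i, (1 + (μ i)⁻¹) ≤ (1 + (μ i)⁻¹) ^ 2 := fun i => by nlinarith [hlp i]
  have hba : 0 < β - α := by linarith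
  set A : ℝ := A' * (1 / δ₀ + (β - α) + 1) with hA
  have hA0 : 0 ≤ A := by positivity
  refine ⟨ι, hι, fun i => (μ i)⁻¹, e, A, ?_⟩
  refine ⟨hA0, hlp, ?_, ?_, ?_, ?_, ?_, ?_, ?_, ?_, ?_⟩
  · have h1 := hp4 m x₀ x₁ α β M c hW ι φ μ hcont heig hnorm hpars
    simpa only [inv_inv] using h1
  · intro i
    have h1 := hpb i
    have h2 := (hBi i).2.1
    have h3 := hlp i
    have h4 : |e i| ≤ |p i| * (μ i)⁻¹ * (1 / δ₀) := by
      rw [he]
      simp only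
      rw [abs_div, abs_mul, abs_of_pos h3, div_eq_mul_one_div]
      exact mul_le_mul_of_nonneg_left (one_div_le_one_div_of_le hδ₀ h2) (by positivity)
    calc |e i| ≤ |p i| * (μ i)⁻¹ * (1 / δ₀) := h4
      _ ≤ A' * (1 + (μ i)⁻¹) * (1 + (μ i)⁻¹) * (1 / δ₀ + (β - α) + 1) := by
          have h5 : 0 < 1 / δ₀ := by positivity
          gcongr
          · linarith
          · linarith
      _ = A * (1 + (μ i)⁻¹) ^ 2 := by rw [hA]; ring
  · intro i x hx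
    rw [hV i x hx, abs_mul]
    have h1 := hpb i
    have h2 := ((hBi i).2.2 x hx).2
    have h3 := hlp i
    have h5 : 0 < 1 / δ₀ := by positivity
    calc |p i| * |Sz m α (-(μ i)⁻¹) x| ≤ A' * (1 + (μ i)⁻¹) * (1 / δ₀ + (β - α) + 1) := by
          gcongr
          linarith
      _ ≤ A' * (1 + (μ i)⁻¹) ^ 2 * (1 / δ₀ + (β - α) + 1) := by
          gcongr
          exact hgrow i
      _ = A * (1 + (μ i)⁻¹) ^ 2 := by rw [hA]; ring
  · intro i x hx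
    rw [hVd i x hx, abs_mul]
    have h1 := hpb i
    have h2 := ((hBi i).2.2 x hx).1
    have h3 := hlp i
    have h5 : 0 < 1 / δ₀ := by positivity
    calc |p i| * |Sdz m α (-(μ i)⁻¹) x| ≤ A' * (1 + (μ i)⁻¹) * (1 / δ₀ + (β - α) + 1) := by
          gcongr
          linarith
      _ ≤ A' * (1 + (μ i)⁻¹) ^ 2 * (1 / δ₀ + (β - α) + 1) := by
          gcongr
          exact hgrow i
      _ = A * (1 + (μ i)⁻¹) ^ 2 := by rw [hA]; ring
  · intro i
    rw [← hnorm i]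
    refine setIntegral_congr_fun measurableSet_Icc fun x hx => ?_
    rw [hφ i x hx]
  · intro i j hij
    rw [← horth i j hij]
    refine setIntegral_congr_fun measurableSet_Icc fun x hx => ?_
    rw [hφ i x hx, hφ j x hx]
  · intro i
    have h1 := hp5 m x₀ x₁ α β M c hW (μ i)⁻¹ (μ i)⁻¹ (hSβ i) (hSβ i)
    have h2 : ∫ x in Icc α β, (e i * Vdz m α β (-(μ i)⁻¹) x) ^ 2 =
        p i ^ 2 * ∫ x in Icc α β, Sdz m α (-(μ i)⁻¹) x * Sdz m α (-(μ i)⁻¹) x := by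
      rw [← integral_const_mul]
      refine setIntegral_congr_fun measurableSet_Icc fun x hx => ?_
      rw [hVd i x hx]
      ring
    rw [h2, h1]
    have h3 : ∫ x in Icc α β, m x * (Sz m α (-(μ i)⁻¹) x * Sz m α (-(μ i)⁻¹) x) =
        ∫ x in Icc α β, m x * Sz m α (-(μ i)⁻¹) x ^ 2 := by
      refine setIntegral_congr_fun measurableSet_Icc fun x _ => ?_
      ring
    rw [h3, mul_left_comm, hS2 i, mul_one]
  · intro i j hij
    have h1 := hp5 m x₀ x₁ α β M c hW (μ i)⁻¹ (μ j)⁻¹ (hSβ i) (hSβ j)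
    have h2 : ∫ x in Icc α β, (e i * Vdz m α β (-(μ i)⁻¹) x) * (e j * Vdz m α β (-(μ j)⁻¹) x) =
        (p i * p j) * ∫ x in Icc α β, Sdz m α (-(μ i)⁻¹) x * Sdz m α (-(μ j)⁻¹) x := by
      rw [← integral_const_mul]
      refine setIntegral_congr_fun measurableSet_Icc fun x hx => ?_
      rw [hVd i x hx, hVd j x hx]
      ring
    have h3 : (p i * p j) * ∫ x in Icc α β, m x * (Sz m α (-(μ i)⁻¹) x * Sz m α (-(μ j)⁻¹) x) = 0 := by
      rw [← horth i j hij, ← integral_const_mul]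
      refine setIntegral_congr_fun measurableSet_Icc fun x hx => ?_
      rw [hp i x hx, hp j x hx]
      ring
    rw [h2, h1, mul_left_comm, h3, mul_zero]
  · intro f hf
    have h1 := hpars f hf
    have h2 : (fun i => (∫ x in Icc α β, m x * (f x * (e i * Vz m α β (-(μ i)⁻¹) x))) ^ 2) =
        fun i => (∫ x in Icc α β, m x * (f x * φ i x)) ^ 2 := by
      funext i
      congr 1
      refine setIntegral_congr_fun measurableSet_Icc fun x hx => ?_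
      rw [hφ i x hx]
    rw [h2]
    exact h1

end Pool.Agent.Q130.CC
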